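import Pool.Agent.H458.AR.Fld
import Pool.Graph.R_pool_sql_team_seeded_63374d34.N667.PQ.P3
import Pool.Graph.R_pool_sql_team_seeded_63374d34.N849.PQ.Int

/-!
# Part SEL: the 2-Selmer group of the twist in terms of valuations
-/

set_option autoImplicit false
set_option linter.all false

open IsDedekindDomain NumberField Matrix Polynomial
open scoped Classical

namespace Pool.Agent.H30.AR458

open Pool.Agent.N922.PQ
open Pool.Agent.N874.PP (Ev Sq1 U0)
open Pool.Agent.H458.AR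

/-- the twist of the cubic polynomial -/
theorem isCub_twist {L : Type} [Field L] [CharZero L] {a b : ℤ} {θ : L} (h : IsCub a b θ) {D : ℤ}
    (hD : D ≠ 0) : IsCub (a * D ^ 2) (b * D ^ 3) ((D : L) * θ) where
  root := by
    push_cast
    linear_combination (D : L) ^ 3 * h.root
  rank := h.rank
  gen := by
    intro x
    obtain ⟨r, s, t, rfl⟩ := h.gen x
    refine ⟨r, s / D, t / D ^ 2, ?_⟩
    have hDL : (D : L) ≠ 0 := by exact_mod_cast hD
    push_cast
    field_simp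

theorem exists_nat {P : ℤ} (h : IsPr P) : ∃ p : ℕ, p.Prime ∧ (p : ℤ) = P := by
  refine ⟨P.toNat, ?_, Int.toNat_of_nonneg h.1.le⟩
  have h1 : Prime ((P.toNat : ℕ) : ℤ) := by
    rw [Int.toNat_of_nonneg h.1.le]
    exact h.2
  exact Nat.prime_iff_prime_int.2 h1

theorem isPr_cast {p : ℕ} (h : p.Prime) : IsPr (p : ℤ) :=
  ⟨by exact_mod_cast h.pos, Nat.prime_iff_prime_int.1 h⟩

theorem eq_of_dvd {P Q : ℤ} (hP : IsPr P) (hQ : IsPr Q) (h : P ∣ Q) : P = Q := by
  by_contra hne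
  have h1 := isCoprime_of hP hQ hne
  exact hP.2.not_unit (h1.isUnit_of_dvd' dvd_rfl h)

theorem mem_of_dvd_prod {P : ℤ} (hP : IsPr P) {J : Finset ℤ} (hJ : ∀ Q ∈ J, IsPr Q)
    (h : P ∣ ∏ Q ∈ J, Q) : P ∈ J := by
  obtain ⟨Q, hQ, hd⟩ := (hP.2.dvd_finset_prod_iff _).1 h
  rw [eq_of_dvd hP (hJ Q hQ) hd]
  exact hQ

theorem prod_mod {J : Finset ℤ} (h : ∀ Q ∈ J, Q % 8 = 1) : (∏ Q ∈ J, Q) % 8 = 1 := by
  induction J using Finset.induction_on with
  | empty => rfl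
  | insert Q J hQ ih =>
    rw [Finset.prod_insert hQ, Int.mul_emod, h Q (Finset.mem_insert_self _ _),
      ih fun Q' hQ' => h Q' (Finset.mem_insert_of_mem hQ')]
    rfl

theorem sel (h1 : S_NQ) (h2 : S_L2) (h3 : S_EVP) (h4 : S_RQ) (h5 : S_GDP) (h6 : S_RJP)
    (h7 : S_RLP) : S_SEL := by
  intro L O _ _ _ _ _ _ _ a b θ X S T s A B hc hS hT hTp hdis hF J hJS α
  have hJ : ∀ Q ∈ J, IsPr Q := fun Q hQ => (hS Q (hJS hQ)).1
  have hDpos : 0 < ∏ Q ∈ J, Q := Finset.prod_pos fun Q hQ => (hJ Q hQ).1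
  have hD8 : (∏ Q ∈ J, Q) % 8 = 1 := prod_mod fun Q hQ => (hS Q (hJS hQ)).2.1
  have hcD := isCub_twist hc hDpos.ne'
  have hsq := hF.sq
  haveI hcO : CharZero O := by
    exact ⟨fun m n h => by
        have h2 := congrArg (algebraMap O L) h
        simpa using h2⟩
  haveI : Algebra.IsIntegral ℤ O := IsIntegralClosure.isIntegral_algebra ℤ L
  have hne23 : ∀ Q ∈ J, Q ≠ 2 ∧ Q ≠ 3 := by
    intro Q hQ
    have := (hS Q (hJS hQ)).2.1
    omega
  -- for `Q ∈ J`
  have hQD : ∀ Q ∈ J, ∃ D' : ℤ, ∏ Q ∈ J, Q = Q * D' ∧ ¬ Q ∣ D' := by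
    intro Q hQ
    refine ⟨∏ Q' ∈ J.erase Q, Q', (Finset.mul_prod_erase J (fun Q => Q) hQ).symm, fun hd => ?_⟩
    have h := mem_of_dvd_prod (hJ Q hQ) (fun Q' hQ' => hJ Q' (Finset.mem_of_mem_erase hQ')) hd
    exact absurd rfl (Finset.ne_of_mem_erase h)
  constructor
  · intro hSl
    have hnm := h1 L _ _ _ hcD α hSl
    refine ⟨hSl.ne, hnm, (h2 L a b _ θ hc hDpos hD8 α hSl.ne).1 (hSl.fin 2), ?_, ?_, ?_⟩
    · intro 𝔓 h𝔓
      obtain ⟨P, hP, hov⟩ := exists_below 𝔓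
      obtain ⟨p, hp, rfl⟩ := exists_nat hP
      by_cases h23 : p = 2 ∨ p = 3
      · have hPT : (p : ℤ) ∈ T := by
          rcases h23 with rfl | rfl
          · exact hT.1
          · exact hT.2.1
        exact Pool.Agent.N667.PQ.p3 Pool.Agent.N849.PQ.int L O a b θ hc hsq (p : ℤ) hP.2
          (fam_nt hT hF hPT) α hSl.ne hnm 𝔓 hov
      · push Not at h23
        haveI : Fact p.Prime := ⟨hp⟩
        have hpD : ¬ (p : ℤ) ∣ ∏ Q ∈ J, Q := by
          intro hd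
          exact h𝔓 _ (mem_of_dvd_prod hP hJ hd) hov
        have hpd : ¬ (p : ℤ) ^ 2 ∣ dsc a b := by
          intro hd
          rw [sq] at hd
          exact hP.2.not_unit (hsq _ hd)
        exact h3 L O a b _ θ hc p h23.1 h23.2 hpD hpd α hSl.ne (hSl.fin p) 𝔓 hov
    · intro Q hQ
      obtain ⟨D', hD', hQD'⟩ := hQD Q hQ
      obtain ⟨p, hp, rfl⟩ := exists_nat (hJ Q hQ)
      haveI : Fact p.Prime := ⟨hp⟩
      have hfin := hSl.fin p
      rw [hD'] at hfin
      rw [Int.cast_natCast]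
      exact (h4 L O a b D' θ hc hsq p (by exact_mod_cast (hne23 _ hQ).1)
        (by exact_mod_cast (hne23 _ hQ).2) (hF.rb _ (hJS hQ)) (fam_ns hS hF (hJS hQ)) hQD' α
        hSl.ne hfin).1
    · intro Q hQ
      obtain ⟨D', hD', hQD'⟩ := hQD Q hQ
      obtain ⟨p, hp, rfl⟩ := exists_nat (hJ Q hQ)
      haveI : Fact p.Prime := ⟨hp⟩
      have hfin := hSl.fin p
      rw [hD'] at hfin
      exact (h4 L O a b D' θ hc hsq p (by exact_mod_cast (hne23 _ hQ).1)
        (by exact_mod_cast (hne23 _ hQ).2) (hF.rb _ (hJS hQ)) (fam_ns hS hF (hJS hQ)) hQD' α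
        hSl.ne hfin).2
  · intro hSJ
    refine ⟨hSJ.ne, ?_, ?_⟩
    · intro p hp
      by_cases hp2 : p = 2
      · subst hp2
        exact (h2 L a b _ θ hc hDpos hD8 α hSJ.ne).2 hSJ.l2
      · by_cases hpD : (p : ℤ) ∣ ∏ Q ∈ J, Q
        · have hQ := mem_of_dvd_prod (isPr_cast hp.out) hJ hpD
          obtain ⟨D', hD', hQD'⟩ := hQD _ hQ
          have hu := hSJ.u0 _ hQ
          rw [Int.cast_natCast] at hu
          rw [hD']
          exact h6 L O a b D' θ hc hsq p hp2 (by exact_mod_cast (hne23 _ hQ).2)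
            (hF.rb _ (hJS hQ)) (fam_ns hS hF (hJS hQ)) hQD' α hSJ.ne hSJ.nm
            hu (hSJ.e1 _ hQ)
        · refine h5 L O a b _ θ hc hsq p hp2 hpD ?_ α hSJ.ne hSJ.nm ?_
          · by_cases h1000 : 1000 ≤ p
            · exact Or.inl h1000
            · right
              exact fam_nt hT hF (hTp p hp.out (by omega))
          · intro 𝔓 hov
            refine hSJ.ev 𝔓 fun Q hQ hQ𝔓 => hpD ?_
            rw [below_unique (isPr_cast hp.out) (hJ Q hQ) hov hQ𝔓]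
            exact Finset.dvd_prod_of_mem (fun Q => Q) hQ
    · refine h7 L _ _ _ hcD ?_ α hSJ.ne hSJ.nm
      have := hF.pa
      positivity

end Pool.Agent.H30.AR458
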